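import Mathlib
import Pool.Agent.H220.TS.Stm

set_option autoImplicit false

open Set Filter Topology Metric

namespace Pool.Agent.H457.TS

open Pool.Agent.H220.TS

theorem s_seq0 : S_seq0 := by
  intro a x k c hc hx hk h1 h2 hlim
  -- choose `N`
  obtain ⟨N0, hN0⟩ : ∃ N0 : ℕ, ∀ n : ℕ, N0 ≤ n → k n ≤ c / 3 := by
    have h3 := hlim.eventually (eventually_le_nhds (show (0 : ℝ) < c / 3 by positivity))
    exact eventually_atTop.1 h3
  have hapos : ∀ n : ℕ, 1 ≤ n → c * n ≤ a n := by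
    intro n hn
    have hn' : (0 : ℝ) < n := by exact_mod_cast hn
    have h3 : c * n * 1 ≤ c * n * x n :=
      mul_le_mul_of_nonneg_left (hx n) (by positivity)
    have h4 := h1 n hn
    linarith
  -- the recursion
  have hrec : ∀ n : ℕ, N0 ≤ n → 1 ≤ n → a (n + 1) ^ 2 / ((n : ℝ) + 1) ≤ a n ^ 2 / n := by
    intro n hn hn1
    have hn' : (1 : ℝ) ≤ n := by exact_mod_cast hn1
    have hn0 : (0 : ℝ) < n := by linarith
    have hA := hapos n hn1
    have hA0 : 0 < a n := lt_of_lt_of_le (by positivity) hA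
    have hB0 : 0 < a (n + 1) := by
      have h3 := hapos (n + 1) (by omega)
      refine lt_of_lt_of_le ?_ h3
      positivity
    have h3 : k n * x n ≤ c / 3 * x n :=
      mul_le_mul_of_nonneg_right (hN0 n hn) (by linarith [hx n])
    have h4 : 3 * n * (c / 3 * x n) ≤ a n := by
      have h5 := h1 n hn1
      calc 3 * (n : ℝ) * (c / 3 * x n) = c * n * x n := by ring
        _ ≤ a n := h5
    have h5 : 3 * n * a (n + 1) ≤ (3 * n + 1) * a n := by
      have h6 := h2 n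
      have h7 : 3 * (n : ℝ) * a (n + 1) ≤ 3 * n * (a n + c / 3 * x n) :=
        mul_le_mul_of_nonneg_left (by linarith) (by positivity)
      calc 3 * (n : ℝ) * a (n + 1) ≤ 3 * n * (a n + c / 3 * x n) := h7
        _ = 3 * n * a n + 3 * n * (c / 3 * x n) := by ring
        _ ≤ 3 * n * a n + a n := by linarith
        _ = (3 * n + 1) * a n := by ring
    rw [div_le_div_iff₀ (by positivity) hn0]
    have h6 : (3 * n * a (n + 1)) ^ 2 ≤ ((3 * n + 1) * a n) ^ 2 :=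
      pow_le_pow_left₀ (by positivity) h5 2
    have h7 : ((3 * (n : ℝ) + 1) * a n) ^ 2 ≤ 9 * n * (n + 1) * a n ^ 2 := by
      have h8 : (3 * (n : ℝ) + 1) ^ 2 ≤ 9 * n * (n + 1) := by nlinarith
      calc ((3 * (n : ℝ) + 1) * a n) ^ 2 = (3 * (n : ℝ) + 1) ^ 2 * a n ^ 2 := by ring
        _ ≤ 9 * n * (n + 1) * a n ^ 2 := mul_le_mul_of_nonneg_right h8 (by positivity)
    have h8 : 9 * (n : ℝ) * (a (n + 1) ^ 2 * n) ≤ 9 * n * (a n ^ 2 * (n + 1)) := by
      calc 9 * (n : ℝ) * (a (n + 1) ^ 2 * n) = (3 * n * a (n + 1)) ^ 2 := by ring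
        _ ≤ ((3 * n + 1) * a n) ^ 2 := h6
        _ ≤ 9 * n * (n + 1) * a n ^ 2 := h7
        _ = 9 * n * (a n ^ 2 * (n + 1)) := by ring
    exact le_of_mul_le_mul_left h8 (by positivity)
  set N : ℕ := N0 + 1 with hN
  have hmono : ∀ j : ℕ, a (N + j) ^ 2 / ((N + j : ℕ) : ℝ) ≤ a N ^ 2 / (N : ℝ) := by
    intro j
    induction j with
    | zero => simp
    | succ j ih =>
      have h3 := hrec (N + j) (by omega) (by omega)
      have h4 : ((N + (j + 1) : ℕ) : ℝ) = ((N + j : ℕ) : ℝ) + 1 := by push_cast; ring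
      rw [h4]
      exact h3.trans ih
  obtain ⟨m, hm⟩ := exists_nat_gt (a N ^ 2 / (N : ℝ) / c ^ 2)
  have h3 := hmono m
  have h4 := hapos (N + m) (by omega)
  have hNm : (0 : ℝ) < ((N + m : ℕ) : ℝ) := by
    have : 0 < N + m := by omega
    exact_mod_cast this
  have h5 : (c * ((N + m : ℕ) : ℝ)) ^ 2 ≤ a (N + m) ^ 2 :=
    pow_le_pow_left₀ (by positivity) h4 2
  have h6 : c ^ 2 * ((N + m : ℕ) : ℝ) ≤ a (N + m) ^ 2 / ((N + m : ℕ) : ℝ) := by
    rw [le_div_iff₀ hNm]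
    calc c ^ 2 * ((N + m : ℕ) : ℝ) * ((N + m : ℕ) : ℝ) = (c * ((N + m : ℕ) : ℝ)) ^ 2 := by ring
      _ ≤ a (N + m) ^ 2 := h5
  have h7 : c ^ 2 * (m : ℝ) ≤ c ^ 2 * ((N + m : ℕ) : ℝ) := by
    refine mul_le_mul_of_nonneg_left ?_ (by positivity)
    push_cast
    have : (0 : ℝ) ≤ (N : ℝ) := Nat.cast_nonneg _
    linarith
  rw [div_lt_iff₀ (by positivity)] at hm
  linarith

end Pool.Agent.H457.TS
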